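import Mathlib
import Pool.Agent.ADM.Shift
import Pool.Agent.ADM.Odd
import Pool.Agent.ADM.Forest

set_option autoImplicit false

/-!
# The colouring bound for induced `F`-free subgraphs: the case `χ(F) = 2`

For a finite graph `F` with chromatic number `2`, the number `χ(F) = 2` is admissible for `F`
exactly when `F` is a linear forest.

* If `F` is bipartite and not a linear forest, then a shortest odd cycle of any graph of
  chromatic number at least `3` is an induced `F`-free subgraph of chromatic number `3`.
* If `F` is a linear forest, shift graphs of long tuples have large chromatic number, no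
  triangle, and no short odd cycle, so each of their induced subgraphs which is not bipartite
  contains a long induced path, hence `F`.
-/

namespace Pool.Agent.Results.MP_30ed83_co.ChromaticTwo

open SimpleGraph Pool.Agent.ADM

/-- `c` is admissible for `F`: for every `r` there is a finite graph `G` with `χ(G) > r`,
`ω(G) = ω(F)`, such that every induced subgraph of `G` without an induced copy of `F` has
chromatic number at most `c`. -/
def Admissible {n : ℕ} (F : SimpleGraph (Fin n)) (c : ℕ) : Prop :=
  ∀ r : ℕ, ∃ (m : ℕ) (G : SimpleGraph (Fin m)),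
    (r : ℕ∞) < G.chromaticNumber ∧
    G.cliqueNum = F.cliqueNum ∧
    ∀ s : Set (Fin m), ¬ F.IsIndContained (G.induce s) →
      (G.induce s).chromaticNumber ≤ c

lemma cliqueNum_eq_two {V : Type*} [Finite V] {G : SimpleGraph V} (he : ∃ a b, G.Adj a b)
    (h3 : G.CliqueFree 3) : G.cliqueNum = 2 := by
  classical
  apply le_antisymm
  · by_contra hcon
    push Not at hcon
    obtain ⟨t, ht⟩ := G.exists_isNClique_cliqueNum
    exact (h3.mono hcon) t ht
  · obtain ⟨a, b, hab⟩ := he
    have hc : G.IsClique (({a, b} : Finset V) : Set V) := by
      rw [Finset.coe_insert, Finset.coe_singleton, isClique_pair]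
      exact fun _ => hab
    have h2 := IsClique.card_le_cliqueNum (tc := hc)
    rwa [Finset.card_pair hab.ne] at h2

lemma exists_adj_of_not_colorable_one {V : Type*} {G : SimpleGraph V}
    (h : ¬ G.Colorable 1) : ∃ a b, G.Adj a b := by
  by_contra hcon
  push Not at hcon
  exact h ⟨Coloring.mk (fun _ => (0 : Fin 1)) (fun {a b} hab => absurd hab (hcon a b))⟩

/-- The existence of triangle-free graphs with large chromatic number in which every induced
subgraph that is not bipartite contains a long induced path. -/
theorem exists_shift (N r : ℕ) : ∃ (m : ℕ) (G : SimpleGraph (Fin m)),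
    ¬ G.Colorable r ∧ G.CliqueFree 3 ∧
    ∀ s : Set (Fin m), ¬ (G.induce s).Colorable 2 →
      (pathGraph N).IsIndContained (G.induce s) := by
  classical
  obtain ⟨n, hn⟩ := exists_not_colorable (N + 3) r
  have : Fintype (Tup (N + 3) n) := Fintype.ofFinite _
  let G0 := shift (N + 3) n
  let G := G0.overFin (n := Fintype.card (Tup (N + 3) n)) rfl
  let e : G0 ≃g G := G0.overFinIso rfl
  have heven : ∀ (x : Fin (Fintype.card (Tup (N + 3) n))) (p : G.Walk x x),
      p.length ≤ N + 3 → Even p.length := by
    intro x p hp
    have h1 : (p.map e.symm.toHom).length = p.length := Walk.length_map _ _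
    rw [← h1]
    exact even_of_closed (p.map e.symm.toHom) (by rw [h1]; exact hp)
  refine ⟨_, G, ?_, ?_, ?_⟩
  · intro hc
    exact hn (hc.of_hom e.toHom)
  · intro t ht
    rw [is3Clique_iff] at ht
    obtain ⟨a, b, c, hab, hac, hbc, -⟩ := ht
    have h1 := heven a (Walk.cons hab (Walk.cons hbc (Walk.cons hac.symm Walk.nil)))
      (by simp only [Walk.length_cons, Walk.length_nil]; omega)
    simp only [Walk.length_cons, Walk.length_nil] at h1
    rw [Nat.even_iff] at h1
    omega
  · intro s hs
    obtain ⟨u, w, hw⟩ := exists_minOdd hs
    apply hw.path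
    by_contra hcon
    push Not at hcon
    have h1 : (w.map (Embedding.induce s).toHom).length = w.length := Walk.length_map _ _
    have h2 := heven _ (w.map (Embedding.induce s).toHom) (by rw [h1]; omega)
    rw [h1] at h2
    exact (Nat.not_even_iff_odd.mpr hw.1) h2

/-- **The case `χ(F) = 2`.**  For a finite graph `F` of chromatic number `2`, the number
`2 = χ(F)` is admissible for `F` if and only if `F` is a linear forest.  If `F` is not a linear
forest, then every finite graph of chromatic number greater than `2`, whatever its clique number,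
has an induced subgraph of chromatic number `3` without an induced copy of `F`. -/
theorem result (n : ℕ) (F : SimpleGraph (Fin n)) (hF : F.chromaticNumber = 2) :
    (Admissible F 2 ↔ IsLinearForest F) ∧
    (¬ IsLinearForest F → ∀ (m : ℕ) (G : SimpleGraph (Fin m)), 2 < G.chromaticNumber →
      ∃ s : Set (Fin m), ¬ F.IsIndContained (G.induce s) ∧
        (G.induce s).chromaticNumber = 3) := by
  classical
  have hF2 : F.Colorable 2 := by
    rw [← chromaticNumber_le_iff_colorable, hF]
    norm_num
  have hFe : ∃ a b, F.Adj a b := by
    apply exists_adj_of_not_colorable_one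
    intro hc
    have := hc.chromaticNumber_le
    rw [hF] at this
    norm_num at this
  have hFc : F.cliqueNum = 2 := cliqueNum_eq_two hFe (hF2.cliqueFree (by norm_num))
  have hneg : ¬ IsLinearForest F → ∀ (m : ℕ) (G : SimpleGraph (Fin m)),
      2 < G.chromaticNumber → ∃ s : Set (Fin m), ¬ F.IsIndContained (G.induce s) ∧
        (G.induce s).chromaticNumber = 3 := by
    intro hnl m G hG
    have hnc : ¬ G.Colorable 2 := by
      intro hc
      exact absurd hc.chromaticNumber_le (not_le.mpr hG)
    obtain ⟨s, hs2, hs3, hs⟩ := exists_odd_hole G hnc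
    refine ⟨s, ?_, ?_⟩
    · intro hcon
      exact hnl ((linearForest_iff F).mpr (hs F hF2 hcon))
    · apply le_antisymm hs3.chromaticNumber_le
      have h1 : (2 : ℕ∞) < (G.induce s).chromaticNumber := by
        rw [← not_le]
        intro hle
        exact hs2 (chromaticNumber_le_iff_colorable.mp (by exact_mod_cast hle))
      have h2 := Order.add_one_le_of_lt h1
      have h3 : (2 : ℕ∞) + 1 = 3 := by norm_num
      rwa [h3] at h2
  refine ⟨⟨?_, ?_⟩, hneg⟩
  · intro hadm
    by_contra hnl
    obtain ⟨m, G, hchi, -, hall⟩ := hadm 2
    obtain ⟨s, hs, hs3⟩ := hneg hnl m G (by exact_mod_cast hchi)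
    have := hall s hs
    rw [hs3] at this
    norm_num at this
  · intro hlf r
    obtain ⟨N, hN⟩ := (linearForest_iff F).mp hlf
    obtain ⟨m, G, h1, h2, h3⟩ := exists_shift N (r + 1)
    refine ⟨m, G, ?_, ?_, ?_⟩
    · rw [← not_le]
      intro hle
      exact h1 ((chromaticNumber_le_iff_colorable.mp hle).mono (Nat.le_succ r))
    · rw [hFc]
      refine cliqueNum_eq_two (exists_adj_of_not_colorable_one ?_) h2
      intro hc
      exact h1 (hc.mono (by omega))
    · intro s hs
      by_contra hcon
      have hnc : ¬ (G.induce s).Colorable 2 := by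
        intro hc
        exact hcon hc.chromaticNumber_le
      exact hs (hN.trans (h3 s hnc))

end Pool.Agent.Results.MP_30ed83_co.ChromaticTwo
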